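import Pool.Agent.W_156d3b_h46.Main

namespace Sur46.FewExceptions

/-- For every `r ≥ 2` there is a constant `C` such that for all `x` at most `C x^(1/r)` of the integers
`2 ≤ k ≤ x` admit `n, m` with `m > k`, `n ≥ m + r` and `n! = m! k!`. (Every solution outside the trivial
family has `n ≥ m + 2`, so `r = 2` bounds the number of all exceptional `k`.) -/
theorem result : ∀ r : ℕ, 2 ≤ r → ∃ C : ℝ, ∀ x : ℕ,
    (Set.ncard {k : ℕ | 2 ≤ k ∧ k ≤ x ∧ ∃ n m : ℕ, k < m ∧ m + r ≤ n ∧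
      Nat.factorial n = Nat.factorial m * Nat.factorial k} : ℝ) ≤ C * (x : ℝ) ^ ((1 : ℝ) / r) :=
  fun r hr => Sur46.main r hr

end Sur46.FewExceptions
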